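import Pool.Agent.U389.FX.All

set_option autoImplicit false

/-!
# Covers by even subgraphs close to the ratio of the conjecture (MP_40718a_co)

The problem asks for a 4-cover by six even subgraphs; taking it several times gives `2 s`-covers by
`3 s` even subgraphs for even `s`, and a graph with a vertex of degree three has no `2 s`-cover by
fewer than `3 s` even subgraphs.  Here: a bridgeless graph has, for every `s`, a `2 s`-cover by
`3 s + 2 ^ (4 k + 1)` even subgraphs if its treewidth is at most `k`, and by
`3 s + 95 √(min (3 s, m + 1) log (2 m + 2)) + 24` even subgraphs if it has `m` edges.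

Proof.  Let every vertex be replaced by a weighted complete graph on its half-edges.  This gadget is
an `r`-graph, and its fractional edge-colouring by perfect matchings (Edmonds, proved here from the
library's lemmas on tight cuts) gives a probability measure on the even subgraphs of `G` which covers
every edge with probability 2/3.

Treewidth `k`: the mixture of this measure with the uniform measure on the cycle space is rounded.
The signed measure whose Fourier coefficients are those of an integral combination of circuits with
constant multiplicities plus multiples of `2 ^ (2 k + 2)` has integral nonnegative marginals on the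
boundary types of all bags, and a family of even subgraphs is assembled from them along the tree
decomposition.  The multiplicities of the edges are those of the integral combination.

All graphs: the measure (with at most `m + 1` atoms) is rounded at random, the parities are corrected
by one more even subgraph, and the rest is a nearly constant even weight, which is covered by the
nine-colouring argument of the library with a bounded number of even subgraphs per unit.
-/

namespace Pool.Agent.Results.MP_40718a_co.NearThreeHalves

open Finset
open Pool.Agent.H126R2.CDC (MGraph)

/-- The graph `G` (loops and parallel edges allowed) has a tree decomposition of width at most `k`: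
a finite tree `T` and a set `bag x` of at most `k + 1` vertices for each node `x`, such that for
every vertex `w` the nodes `x` with `w ∈ bag x` induce a nonempty connected subgraph of `T`, and
the ends of every edge lie in a common bag. -/
def TreewidthAtMost {V E : Type} (G : MGraph V E) (k : ℕ) : Prop :=
  ∃ (N : Type) (_ : Fintype N) (T : SimpleGraph N) (bag : N → Finset V), T.IsTree ∧
    (∀ w, (T.induce {x | w ∈ bag x}).Connected) ∧
    (∀ e, ∃ x, ∀ w ∈ G.ends e, w ∈ bag x) ∧ ∀ x, (bag x).card ≤ k + 1

/-- **Theorem.** Let `G` be a bridgeless graph with `m` edges, and let `s` and `n` be natural numbers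
with one of the following properties.
* For some `k ≥ 1` the treewidth of `G` is at most `k`, and `n ≥ 3 s + 2 ^ (4 k + 1)`.
* `n ≥ 3 s + 95 √(min (3 s, m + 1) log (2 (m + 1))) + 24`.
Then there are `n` even subgraphs (sets of edges which give every vertex an even degree) such that
every edge lies in exactly `2 s` of them. -/
theorem result (V E : Type) [Fintype V] [DecidableEq V] [Fintype E] [DecidableEq E]
    (G : MGraph V E) (hG : G.Bridgeless) (s n : ℕ)
    (hn : (∃ k : ℕ, 1 ≤ k ∧ TreewidthAtMost G k ∧ 3 * s + 2 ^ (4 * k + 1) ≤ n) ∨
      (3 * (s : ℝ)) + 95 * Real.sqrt (min (3 * (s : ℝ)) (Fintype.card E + 1) *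
        Real.log (2 * (Fintype.card E + 1))) + 24 ≤ n) :
    ∃ C : Fin n → Finset E, (∀ i v, Even (G.deg (C i) v)) ∧
      ∀ e, (univ.filter fun i => e ∈ C i).card = 2 * s := by
  classical
  rcases hn with ⟨k, hk, ⟨N, _, T, bag, h1, h2, h3, h4⟩, hn⟩ | hn
  · obtain ⟨C, hC1, hC2⟩ :=
      Pool.Agent.U389.FX.cover_tw_all G hG hk ⟨T, h1, bag, h2, h3, h4⟩ s n hn
    exact ⟨C, hC1, fun e => by rw [← hC2 e]⟩
  · obtain ⟨C, hC1, hC2⟩ := Pool.Agent.U389.FX.cover_gen_all G hG s n hn
    exact ⟨C, hC1, fun e => by rw [← hC2 e]⟩

end Pool.Agent.Results.MP_40718a_co.NearThreeHalves
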