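import Pool.Agent.U875.TP.Class
import Pool.Agent.U605.DD.Main

/-!
# Six even subgraphs covering every edge four times: graphs without wide spread sets (MP_40718a_co)

Every finite multigraph without cut edges which satisfies the condition `NoWideSpread` (below) has six
even subgraphs such that every edge is in exactly four of them.

For integers `d ≥ 4` and `r` the radius of a vertex is `r` if it has at least `d` neighbours, otherwise
zero.  A set of vertices is spread if the distance of any two of them is greater than the sum of the
radii; it is wide if the distance of some two of them is greater than two plus the sum of the radii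
and for some five of them the pairwise distances are greater than one plus the sum of the radii.  The
condition `NoWideSpread`: for some `d ≥ 4` and `r` every circuit of the underlying simple graph with at
most `2 r` vertices contains a vertex with fewer than `d` neighbours (for `r = 1` there is no such
circuit), and no spread set with at least `18 - 6 / (d / 2 - 1)` vertices (12 for `d = 4`, 15 for
`d = 6`, 18 for `d ≥ 16`) is wide.

For example, all vertices have at least four neighbours, and
* the diameter is at most four, or
* there is a dominating set with at most eleven vertices, or
* there are fewer than sixty vertices, or
* of any five vertices two have distance at most three, or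
* the underlying simple graph has no circuit with at most `2 r` vertices, and its diameter is at most
  `2 r + 2` or it has fewer than `12 (2 * 3 ^ r - 1)` vertices.

Proof.  Let `H` be a quotient of `G` without nowhere-zero 4-flow and without Petersen quotient such
that all proper quotients of `H` have a flow.  The starting library shows that `H` has no circuit of
length at most four, 18 vertices of odd degree with degree sum at most 66, at least twelve vertices of
degree three, that `k ≥ 2` vertices of `H` span at most `2 k - 3` edges, and that five of any twelve
vertices are pairwise nonadjacent.  New here: two vertices of degree three have distance at least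
three in `H` (if not, every vertex has at most three neighbours of degree three, and there are at most
ten vertices of degree three); and a class with fewer than `d` boundary edges all vertices of which
have at least `d` neighbours contains the ball with radius `r` around some vertex (a vertex with
greatest distance to the boundary: two of its neighbours have the same nearest boundary vertex, and
this gives a circuit with at most `2 r` vertices).  The centres of such balls in the classes with fewer
than `d` boundary edges form a wide spread set of `G`.
So `G` has a nowhere-zero 4-flow, or ten classes of vertices form a Petersen graph; the condition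
`NoMq` is inherited by quotients, and the covers of the ten smaller graphs in which the vertices
outside of one class are identified can be glued (`R890/FF`, `N410/DC/Gen.lean`, `U875/TP`).
-/

set_option autoImplicit false

namespace Pool.Agent.Results.MP_40718a_co.SpreadSets

open Finset Pool.Agent.U875.TP
open Pool.Agent.U605.DD

/-- the simple graph in which two distinct vertices are adjacent if an edge in `F` joins them -/
def under {V E : Type} (src dst : E → V) (F : Set E) : SimpleGraph V where
  Adj x y := x ≠ y ∧ ∃ e ∈ F, (src e = x ∧ dst e = y) ∨ (src e = y ∧ dst e = x)
  symm := ⟨fun _ _ h => ⟨h.1.symm, h.2.imp fun _ he => ⟨he.1, he.2.symm⟩⟩⟩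
  loopless := ⟨fun _ h => h.1 rfl⟩

/-- the edge `e` is a cut edge: its ends are not connected by the other edges -/
def IsCutEdge {V E : Type} (src dst : E → V) (e : E) : Prop :=
  ¬ (under src dst {e' | e' ≠ e}).Reachable (src e) (dst e)

/-- the degree of `v` in the set of edges `F`, where a loop counts twice -/
def deg {V E : Type} [DecidableEq V] (src dst : E → V) (F : Finset E) (v : V) : ℕ :=
  ∑ e ∈ F, ((if src e = v then 1 else 0) + (if dst e = v then 1 else 0))

/-- **Theorem.** A graph without a cut edge which satisfies the condition has six even
subgraphs such that every edge is in exactly four of them. -/
theorem result (V E : Type) [Fintype V] [DecidableEq V] [Fintype E] [DecidableEq E]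
    (src dst : E → V) (hI : ∀ e, ¬ IsCutEdge src dst e) (h : NoWideSpread src dst) :
    ∃ C : Fin 6 → Finset E, (∀ i v, Even (deg src dst (C i) v)) ∧
      ∀ e, (univ.filter fun i => e ∈ C i).card = 4 := by
  classical
  -- no cut with one edge
  have hcut : Pool.Agent.TH676.A.Br src dst ∅ ∅ := by
    intro Y _ hY
    rw [sdiff_empty] at hY
    obtain ⟨e, he⟩ := card_eq_one.mp hY
    apply hI e
    intro hr
    have hstay : ∀ x y, (under src dst {e' | e' ≠ e}).Reachable x y → (x ∈ Y ↔ y ∈ Y) := by
      rintro x y ⟨p⟩
      induction p with
      | nil => exact Iff.rfl
      | cons hadj _ ih =>
        refine Iff.trans ?_ ih
        obtain ⟨_, e', he', h1⟩ := hadj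
        have hn : e' ∉ Pool.Agent.TH676.A.crs src dst Y := by
          rw [he, mem_singleton]; exact he'
        rw [Pool.Agent.TH676.A.mem_crs, not_not] at hn
        rcases h1 with ⟨h2, h3⟩ | ⟨h2, h3⟩
        · rw [h2, h3] at hn; exact hn
        · rw [h2, h3] at hn; exact hn.symm
    have hm : e ∈ Pool.Agent.TH676.A.crs src dst Y := by rw [he]; exact mem_singleton_self _
    rw [Pool.Agent.TH676.A.mem_crs] at hm
    exact hm (hstay _ _ hr)
  obtain ⟨C, h1, h2⟩ := Pool.Agent.TH497.BF.six
    (N410.DC.bf_gen inh_noMq src dst hcut (gcl_of_noMq (noMq_of_spread h)))
  exact ⟨C, h1, h2⟩

end Pool.Agent.Results.MP_40718a_co.SpreadSets
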