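import Pool.Agent.U513.TH.Class
import Pool.Agent.R890.FF.BF
import Pool.Agent.TH497.BF.Six

/-!
# Six even subgraphs with every edge in exactly four of them: small circuits, paths or theta graphs (MP_40718a_co)

Let `G` be a finite multigraph without cut edge which satisfies the condition below.  Then `G` has
six even subgraphs such that every edge is in exactly four of them.

The condition is one of the following; the order, the degrees and the connectivity of `G` are
arbitrary.
* no circuit of `G` has more than fifteen vertices;
* no path of `G` has more than sixteen vertices;
* (this includes both) `G` contains no theta graph with at least 17 vertices which contains a circuit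
  with at least 16 vertices.  A theta graph consists of two vertices and three paths between them
  which have no common inner vertices.

Proof.  Theta graphs of a contraction of disjoint connected vertex sets lift to theta graphs of `G`
in which the three paths are not shorter (`U513/TH/Lift`): the three ends of the paths in a
contracted set are joined by a tripod.  A minimal contraction `H` of `G` without nowhere-zero 4-flow
and without Petersen quotient has no circuits with at most four vertices, minimum degree at least
three and no separating vertex, apart from isolated vertices, and it has at least 18 vertices of odd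
degree (library).  New: a graph with these properties has a circuit with at least sixteen vertices.
If a longest circuit has fourteen or fifteen vertices, the graph contains it together with further
ears, where the next ear starts at a vertex of degree two of the present subgraph or, if there is
none, has new vertices.  A search over all ears shows that there is no such graph; the certificate of
the search, which also uses that subgraphs which are excluded already do not occur, is checked by the
kernel (`U513/C15`).  For shorter circuits this is the theorem on circumference thirteen of the
library.
So `G` has a nowhere-zero 4-flow or ten classes of vertices form a Petersen graph.  A smallest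
contraction of `G` without six even subgraphs has no Petersen quotient apart from components which
are Petersen graphs: the covers of the two sides of a cut with three edges can be glued
(`U513/TH/Alg`).
-/

set_option autoImplicit false

namespace Pool.Agent.Results.MP_40718a_co.ThetaGraphs

open Finset Pool.Agent.U513.TH

/-- the simple graph in which two distinct vertices are adjacent if an edge in `F` joins them -/
def under {V E : Type} (src dst : E → V) (F : Set E) : SimpleGraph V where
  Adj x y := x ≠ y ∧ ∃ e ∈ F, (src e = x ∧ dst e = y) ∨ (src e = y ∧ dst e = x)
  symm := ⟨fun _ _ h => ⟨h.1.symm, h.2.imp fun _ he => ⟨he.1, he.2.symm⟩⟩⟩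
  loopless := ⟨fun _ h => h.1 rfl⟩

/-- the edge `e` is a cut edge: its ends are not connected by the other edges -/
def IsCutEdge {V E : Type} (src dst : E → V) (e : E) : Prop :=
  ¬ (under src dst {e' | e' ≠ e}).Reachable (src e) (dst e)

/-- the degree of `v` in the set of edges `F`, where a loop counts twice -/
def deg {V E : Type} [DecidableEq V] (src dst : E → V) (F : Finset E) (v : V) : ℕ :=
  ∑ e ∈ F, ((if src e = v then 1 else 0) + (if dst e = v then 1 else 0))

/-- **Theorem.** A graph without a cut edge which satisfies the condition has six even subgraphs such that every edge is in exactly
four of them. -/
theorem result (V E : Type) [Fintype V] [DecidableEq V] [Fintype E] [DecidableEq E]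
    (src dst : E → V) (hI : ∀ e, ¬ IsCutEdge src dst e) (hc : Condition src dst) :
    ∃ C : Fin 6 → Finset E, (∀ i v, Even (deg src dst (C i) v)) ∧
      ∀ e, (univ.filter fun i => e ∈ C i).card = 4 := by
  classical
  -- no cut with one edge
  have hcut : Pool.Agent.TH676.A.Br src dst ∅ ∅ := by
    intro Y _ hY
    rw [sdiff_empty] at hY
    obtain ⟨e, he⟩ := card_eq_one.mp hY
    apply hI e
    intro hr
    have hstay : ∀ x y, (under src dst {e' | e' ≠ e}).Reachable x y → (x ∈ Y ↔ y ∈ Y) := by
      rintro x y ⟨p⟩
      induction p with
      | nil => exact Iff.rfl
      | cons hadj _ ih =>
        refine Iff.trans ?_ ih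
        obtain ⟨_, e', he', h1⟩ := hadj
        have hn : e' ∉ Pool.Agent.TH676.A.crs src dst Y := by
          rw [he, mem_singleton]; exact he'
        rw [Pool.Agent.TH676.A.mem_crs, not_not] at hn
        rcases h1 with ⟨h2, h3⟩ | ⟨h2, h3⟩
        · rw [h2, h3] at hn; exact hn
        · rw [h2, h3] at hn; exact hn.symm
    have hm : e ∈ Pool.Agent.TH676.A.crs src dst Y := by rw [he]; exact mem_singleton_self _
    rw [Pool.Agent.TH676.A.mem_crs] at hm
    exact hm (hstay _ _ hr)
  obtain ⟨C, h1, h2⟩ := Pool.Agent.TH497.BF.six (alg Pool.Agent.TH497.BF.algAg
    Pool.Agent.R890.FF.petBF ⟨Pool.Agent.R890.FF.embBF, Pool.Agent.R890.FF.emb_A⟩ src dst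
    (Pool.Agent.R890.FF.n1_of_br hcut) (NoTheta.of hc))
  exact ⟨C, h1, h2⟩

end Pool.Agent.Results.MP_40718a_co.ThetaGraphs
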