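import Pool.Agent.U875.TP.Class

/-!
# Quadruple covers by six even subgraphs: tight partitions (MP_40718a_co)

Let `G` be a finite multigraph without cut edges which satisfies one of the following conditions.
* every quotient of `G` (vertices are identified) with at least 18 vertices of odd degree is reducible:
  it has a vertex of degree two (loops not counted), a triangle, a circuit of length four, a set of
  `k ≥ 2` vertices which spans at least `2 k - 2` edges, a cut with at most three edges and edges on
  both sides, or a separating vertex;
* of three edges and a vertex always two are close: equal, with a common end, joined by an edge or by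
  two different walks with two edges; for example if the underlying simple graph does not contain three
  edges and a vertex as an induced subgraph;
* of seven vertices always two are close; for example, the independence number is at most six.

Proof.  Let `H` be a quotient of `G` without nowhere-zero 4-flow and without Petersen quotient such
that all proper quotients of `H` have a flow.  The starting library shows that `H` has at least 18
vertices of odd degree, no vertex with one or two edges, no circuit of length at most four, and that
`k ≥ 2` vertices of `H` span at most `2 k - 3` edges.  New here: if a cut of `H` has at most three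
edges then one side spans no edge (the flows of the two quotients in which one side is one vertex
agree on the cut up to an automorphism of the group), and `H` has no separating vertex; so `H` is not
reducible.  New as well: a graph with minimum degree at least three, at least 18 vertices and no
circuit of length at most four has three edges and a vertex which are pairwise far from each other
(`U875/TP/Edges.lean`): otherwise the maximum degree is three, and after the deletion of two far
edges and their neighbours an edge with its four neighbours remains.
So `G` has a nowhere-zero 4-flow, or ten classes of vertices form a Petersen graph; the condition is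
inherited by quotients, and the covers of the ten smaller graphs in which the vertices outside of
one class are identified can be glued (`R890/FF`, `N410/DC/Gen.lean`).
-/

set_option autoImplicit false

namespace Pool.Agent.Results.MP_40718a_co.TightPartitions

open Finset Pool.Agent.U875.TP

/-- the simple graph in which two distinct vertices are adjacent if an edge in `F` joins them -/
def under {V E : Type} (src dst : E → V) (F : Set E) : SimpleGraph V where
  Adj x y := x ≠ y ∧ ∃ e ∈ F, (src e = x ∧ dst e = y) ∨ (src e = y ∧ dst e = x)
  symm := ⟨fun _ _ h => ⟨h.1.symm, h.2.imp fun _ he => ⟨he.1, he.2.symm⟩⟩⟩
  loopless := ⟨fun _ h => h.1 rfl⟩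

/-- the edge `e` is a cut edge: its ends are not connected by the other edges -/
def IsCutEdge {V E : Type} (src dst : E → V) (e : E) : Prop :=
  ¬ (under src dst {e' | e' ≠ e}).Reachable (src e) (dst e)

/-- the degree of `v` in the set of edges `F`, where a loop counts twice -/
def deg {V E : Type} [DecidableEq V] (src dst : E → V) (F : Finset E) (v : V) : ℕ :=
  ∑ e ∈ F, ((if src e = v then 1 else 0) + (if dst e = v then 1 else 0))

/-- One of the conditions holds: every quotient with at least 18 vertices with an odd number of
boundary edges is reducible, or of three edges (not loops) and a vertex always two are close, or of
seven different vertices always two are close. -/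
def Condition {V E : Type} [Fintype V] [DecidableEq V] [Fintype E] [DecidableEq E]
    (s t : E → V) : Prop :=
  QuotientsReducible s t ∨ ThreeClose s t ∨ SevenClose s t

/-- under each of the conditions no quotient is minimal -/
theorem noMq {V E : Type} [Fintype V] [DecidableEq V] [Fintype E] [DecidableEq E]
    {s t : E → V} (h : Condition s t) : NoMq s t := by
  rcases h with h | h | h
  · exact noMq_of_quotients h
  · exact noMq_of_three h
  · exact noMq_of_seven h

/-- **Theorem.** A graph without a cut edge which satisfies one of the conditions has six even
subgraphs such that every edge is in exactly four of them. -/
theorem result (V E : Type) [Fintype V] [DecidableEq V] [Fintype E] [DecidableEq E]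
    (src dst : E → V) (hI : ∀ e, ¬ IsCutEdge src dst e) (h : Condition src dst) :
    ∃ C : Fin 6 → Finset E, (∀ i v, Even (deg src dst (C i) v)) ∧
      ∀ e, (univ.filter fun i => e ∈ C i).card = 4 := by
  classical
  -- no cut with one edge
  have hcut : Pool.Agent.TH676.A.Br src dst ∅ ∅ := by
    intro Y _ hY
    rw [sdiff_empty] at hY
    obtain ⟨e, he⟩ := card_eq_one.mp hY
    apply hI e
    intro hr
    have hstay : ∀ x y, (under src dst {e' | e' ≠ e}).Reachable x y → (x ∈ Y ↔ y ∈ Y) := by
      rintro x y ⟨p⟩
      induction p with
      | nil => exact Iff.rfl
      | cons hadj _ ih =>
        refine Iff.trans ?_ ih
        obtain ⟨_, e', he', h1⟩ := hadj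
        have hn : e' ∉ Pool.Agent.TH676.A.crs src dst Y := by
          rw [he, mem_singleton]; exact he'
        rw [Pool.Agent.TH676.A.mem_crs, not_not] at hn
        rcases h1 with ⟨h2, h3⟩ | ⟨h2, h3⟩
        · rw [h2, h3] at hn; exact hn
        · rw [h2, h3] at hn; exact hn.symm
    have hm : e ∈ Pool.Agent.TH676.A.crs src dst Y := by rw [he]; exact mem_singleton_self _
    rw [Pool.Agent.TH676.A.mem_crs] at hm
    exact hm (hstay _ _ hr)
  obtain ⟨C, h1, h2⟩ := Pool.Agent.TH497.BF.six
    (N410.DC.bf_gen inh_noMq src dst hcut (gcl_of_noMq (noMq h)))
  exact ⟨C, h1, h2⟩

end Pool.Agent.Results.MP_40718a_co.TightPartitions
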